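import Pool.Agent.TH793.ST.Basic

/-!
# Seymour's trace question for equal degrees: `2n + 4 ≤ 5r + 2⌈n/r⌉`
-/

set_option autoImplicit false

namespace Pool.Agent.Results.MP_323cd4_co.SmallQuotient

open Finset

/-- In an oriented graph with minimum out-degree `r` on `n ≥ 1` vertices `2r + 1 ≤ n`. -/
theorem two_r {n r : ℕ} (hn : 1 ≤ n) {B : Matrix (Fin n) (Fin n) ℕ}
    (h : Pool.Agent.TH793.ST.Adm B r) : 2 * r + 1 ≤ n := by
  have : Nonempty (Fin n) := ⟨⟨0, hn⟩⟩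
  obtain ⟨x, -, hx⟩ := Pool.Agent.TH793.ST.exists_small h univ univ_nonempty
  rw [inter_univ, card_univ, Fintype.card_fin] at hx
  have := Pool.Agent.TH793.ST.card_N h x
  omega

theorem result (n r : ℕ) (hn : 1 ≤ n) (hr : 1 ≤ r)
    (A : Fin ((n + r - 1) / r) → Matrix (Fin n) (Fin n) ℕ)
    (h01 : ∀ k i j, A k i j = 0 ∨ A k i j = 1)
    (hdiag : ∀ k i, A k i i = 1)
    (hori : ∀ k i j, i ≠ j → A k i j = 1 → A k j i ≠ 1)
    (hrow : ∀ k i, r + 1 ≤ ∑ j, A k i j)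
    (h : 2 * n + 4 ≤ 5 * r + 2 * ((n + r - 1) / r)) :
    n < Matrix.trace (List.ofFn A).prod := by
  have hA : ∀ k, Pool.Agent.TH793.ST.Adm (A k) r := fun k => ⟨h01 k, hdiag k, hori k, hrow k⟩
  have hk1 : 0 < (n + r - 1) / r := Nat.div_pos (by omega) hr
  have h2 := two_r hn (hA ⟨0, hk1⟩)
  have h3 : 3 ≤ (n + r - 1) / r := by
    rw [Nat.le_div_iff_mul_le hr]
    omega
  obtain ⟨t, ht⟩ : ∃ t, (n + r - 1) / r = t + 3 := ⟨(n + r - 1) / r - 3, by omega⟩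
  generalize (n + r - 1) / r = k at *
  subst ht
  refine Pool.Agent.TH793.ST.main hn A (fun _ => r) hA 0 ?_
  have h4 : min 1 r = 1 := min_eq_left hr
  have h5 := Pool.Agent.TH793.ST.sum3 (t := t) 0 (fun _ => min 1 r)
  have h6 := sum_sdiff (f := fun _ : Fin (t + 3) => min 1 r)
    (subset_univ ({0, 0 + 1, 0 + 2} : Finset (Fin (t + 3))))
  rw [h5] at h6
  simp only [h4, sum_const, card_univ, Fintype.card_fin, smul_eq_mul, mul_one] at h6 ⊢
  omega

end Pool.Agent.Results.MP_323cd4_co.SmallQuotient
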